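import Mathlib

namespace Pool.Agent.Results.MP_270153_nt.Full

open Finset

def S (m N : ℕ) : ℚ :=
  ∑ k ∈ range (N + 1), (4 * (k : ℚ) - 1) ^ m * (∏ i ∈ range k, (-1 / 2 + (i : ℚ))) ^ 4
    / ((k.factorial : ℚ)) ^ 4

def Cong (p n : ℕ) (x y : ℚ) : Prop :=
  ∃ u v : ℤ, ¬ (p : ℤ) ∣ v ∧ x - y = (p : ℚ) ^ n * u / v

theorem result : ¬ ∃ d : ℤ, ∀ p r : ℕ, p.Prime → 5 ≤ p → 1 ≤ r →
    Cong p (r + 3) (S 15 ((p ^ r + 1) / 2)) (d * (p : ℚ) ^ r) := by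
  rintro ⟨d, h⟩
  obtain ⟨u, v, hv, e⟩ := h 5 1 (by norm_num) (by norm_num) (by norm_num)
  obtain ⟨u', v', hv', e'⟩ := h 5 2 (by norm_num) (by norm_num) (by norm_num)
  have hv0 : (v : ℚ) ≠ 0 := by rintro h0; apply hv; simp [show v = 0 by exact_mod_cast h0]
  have hv0' : (v' : ℚ) ≠ 0 := by rintro h0; apply hv'; simp [show v' = 0 by exact_mod_cast h0]
  have a : ∃ A : ℤ, ∃ B : ℕ, ¬ (125 : ℤ) ∣ A ∧
      (S 15 ((5 ^ 1 + 1) / 2) / 5 - S 15 ((5 ^ 2 + 1) / 2) / 25) * B = A := by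
    refine ⟨(S 15 ((5 ^ 1 + 1) / 2) / 5 - S 15 ((5 ^ 2 + 1) / 2) / 25).num,
      (S 15 ((5 ^ 1 + 1) / 2) / 5 - S 15 ((5 ^ 2 + 1) / 2) / 25).den, by decide +kernel, ?_⟩
    exact Rat.mul_den_eq_num _
  obtain ⟨A, B, hA, hB⟩ := a
  generalize S 15 ((5 ^ 1 + 1) / 2) = x at *
  generalize S 15 ((5 ^ 2 + 1) / 2) = y at *
  have k : (A : ℚ) * (v * v') = 125 * (B * (u * v' - u' * v)) := by
    rw [← hB]
    have e1 : x = d * 5 + 625 * u / v := by push_cast at e; linarith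
    have e2 : y = d * 25 + 3125 * u' / v' := by push_cast at e'; linarith
    rw [e1, e2]; field_simp; ring
  have k' : A * (v * v') = 125 * (B * (u * v' - u' * v)) := by exact_mod_cast k
  have p5 : Prime (5 : ℤ) := Int.prime_iff_natAbs_prime.2 (by norm_num)
  have c : IsCoprime ((5 : ℤ) ^ 3) (v * v') :=
    IsCoprime.pow_left (p5.coprime_iff_not_dvd.2 fun hh => (p5.dvd_or_dvd hh).elim hv hv')
  exact hA (c.dvd_of_dvd_mul_right ⟨_, k'⟩)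

end Pool.Agent.Results.MP_270153_nt.Full
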